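import Pool.Agent.Work.MP_5e4613_co.Lower

/-!
# `χ_m = 3` for dual-ABAB-free hypergraphs of bounded depth
-/

namespace Pool.Agent.Work.MP_5e4613_co.BoundedDepth

open Pool.Agent.DABAB

/-- The hypergraph on `X` with the hyperedges `F` is ABAB-free. -/
def ABABFree {X : Type} (F : Set (Set X)) : Prop :=
  ∃ _ : LinearOrder X, ∀ A ∈ F, ∀ B ∈ F, ¬ ∃ a₁ b₁ a₂ b₂ : X, a₁ < b₁ ∧ b₁ < a₂ ∧ a₂ < b₂ ∧
    a₁ ∈ A \ B ∧ b₁ ∈ B \ A ∧ a₂ ∈ A \ B ∧ b₂ ∈ B \ A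

/-- The hyperedges of the dual of the hypergraph `(V, E)`; its vertex set is `E`. -/
def dual {V : Type} (E : Finset (Finset V)) : Set (Set {e // e ∈ E}) :=
  Set.range fun v : V => {e | v ∈ e.1}

/-- A family of hypergraphs `(V, E)`. -/
abbrev Family := (V : Type) → Finset (Finset V) → Prop

/-- All finite hypergraphs of the family have a colouring with `c` colours such that the hyperedges
with at least `m` vertices are non-monochromatic. -/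
def Colours (𝓕 : Family) (c m : ℕ) : Prop :=
  ∀ (V : Type) [Finite V] (E : Finset (Finset V)), 𝓕 V E →
    ∃ f : V → Fin c, ∀ e ∈ E, m ≤ e.card → ∃ x ∈ e, ∃ y ∈ e, f x ≠ f y

/-- The parameter `χ_m` of the family. -/
noncomputable def chiM (𝓕 : Family) : ℕ∞ :=
  ⨅ (c : ℕ) (_ : 0 < c ∧ ∃ m, Colours 𝓕 c m), (c : ℕ∞)

open Classical in
/-- The dual-ABAB-free hypergraphs with a set `W` of vertices such that every vertex of `W` is in a
hyperedge with at most `k` vertices of `W`, and every hyperedge with at least `m` vertices has more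
than `k` vertices in `W`. -/
def Fam (k m : ℕ) : Family := fun V E => ABABFree (dual E) ∧ ∃ W : Finset V,
  (∀ v ∈ W, ∃ e ∈ E, v ∈ e ∧ (e ∩ W).card ≤ k) ∧ ∀ e ∈ E, m ≤ e.card → k < (e ∩ W).card

/-- The dual-ABAB-free hypergraphs in which every vertex is in a hyperedge with at most `k`
vertices. -/
def Shallow (k : ℕ) : Family := fun V E => ABABFree (dual E) ∧ ∀ v : V, ∃ e ∈ E, v ∈ e ∧ e.card ≤ k

theorem fam_of_shallow {k m : ℕ} (hkm : k < m) {V : Type} [Finite V] {E : Finset (Finset V)}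
    (h : Shallow k V E) : Fam k m V E := by
  classical
  have := Fintype.ofFinite V
  refine ⟨h.1, Finset.univ, fun v _ => ?_, fun e _ hme => ?_⟩
  · obtain ⟨e, he, hve, hek⟩ := h.2 v
    exact ⟨e, he, hve, by rw [Finset.inter_univ]; exact hek⟩
  · rw [Finset.inter_univ]
    omega

theorem nc_of_free {ι V : Type} [LinearOrder ι] [DecidableEq V] (S : ι → Finset V)
    (h : ∀ v w : V, ¬ ∃ a₁ b₁ a₂ b₂ : ι, a₁ < b₁ ∧ b₁ < a₂ ∧ a₂ < b₂ ∧
      (v ∈ S a₁ ∧ w ∉ S a₁) ∧ (w ∈ S b₁ ∧ v ∉ S b₁) ∧ (v ∈ S a₂ ∧ w ∉ S a₂) ∧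
      (w ∈ S b₂ ∧ v ∉ S b₂)) : NC S := by
  intro v w i j k l h1 h2 h3 h4 h5 h6 h7 h8
  have nij : i ≠ j := fun he => h6 (he ▸ h1)
  have nkj : k ≠ j := fun he => h6 (he ▸ h3)
  have nil : i ≠ l := fun he => h8 (he ▸ h1)
  have nkl : k ≠ l := fun he => h8 (he ▸ h3)
  have P := fun a b c d p q r t => h v w ⟨a, b, c, d, p, q, r, t⟩
  have Q := fun a b c d p q r t => h w v ⟨a, b, c, d, p, q, r, t⟩
  rcases lt_or_gt_of_ne nij with p1 | p1 <;> rcases lt_or_gt_of_ne nkj with p2 | p2 <;>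
    rcases lt_or_gt_of_ne nil with p3 | p3 <;> rcases lt_or_gt_of_ne nkl with p4 | p4 <;>
    simp only [p1, p2, p3, p4, not_lt_of_gt p1, not_lt_of_gt p2, not_lt_of_gt p3,
      not_lt_of_gt p4, iff_true, iff_false, not_true_eq_false, iff_self]
  · exact P i l k j p3 p4 p2 ⟨⟨h1, h2⟩, ⟨h7, h8⟩, ⟨h3, h4⟩, ⟨h5, h6⟩⟩
  · exact P k l i j p4 p3 p1 ⟨⟨h3, h4⟩, ⟨h7, h8⟩, ⟨h1, h2⟩, ⟨h5, h6⟩⟩
  · exact P i j k l p1 p2 p4 ⟨⟨h1, h2⟩, ⟨h5, h6⟩, ⟨h3, h4⟩, ⟨h7, h8⟩⟩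
  · exact Q l i j k p3 p1 p2 ⟨⟨h7, h8⟩, ⟨h1, h2⟩, ⟨h5, h6⟩, ⟨h3, h4⟩⟩
  · exact P k j i l p2 p1 p3 ⟨⟨h3, h4⟩, ⟨h5, h6⟩, ⟨h1, h2⟩, ⟨h7, h8⟩⟩
  · exact Q l k j i p4 p2 p1 ⟨⟨h7, h8⟩, ⟨h3, h4⟩, ⟨h5, h6⟩, ⟨h1, h2⟩⟩
  · exact Q j i l k p1 p3 p4 ⟨⟨h5, h6⟩, ⟨h1, h2⟩, ⟨h7, h8⟩, ⟨h3, h4⟩⟩
  · exact Q j k l i p2 p4 p3 ⟨⟨h5, h6⟩, ⟨h3, h4⟩, ⟨h7, h8⟩, ⟨h1, h2⟩⟩

theorem upper (k m : ℕ) (hkm : k < m) : Colours (Fam k m) 3 m := by
  classical
  intro V _ E hE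
  obtain ⟨⟨o, hfree⟩, W, hW1, hW2⟩ := hE
  letI := o
  have hNC : NC (fun e : {e // e ∈ E} => e.1) := by
    refine nc_of_free _ fun v w hcon => ?_
    obtain ⟨a₁, b₁, a₂, b₂, p, q, r, h1, h2, h3, h4⟩ := hcon
    exact hfree _ ⟨v, rfl⟩ _ ⟨w, rfl⟩ ⟨a₁, b₁, a₂, b₂, p, q, r, h1, h2, h3, h4⟩
  obtain ⟨c, hc⟩ := coreB hNC k W (fun v hv => by
    obtain ⟨e, he, hve, hek⟩ := hW1 v hv
    refine ⟨⟨e, he⟩, hve, ?_⟩
    convert hek)
  refine ⟨c, fun e he hme => ?_⟩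
  obtain ⟨x, hx, y, hy, hxy⟩ := hc ⟨e, he⟩ (by
    have h1 := hW2 e he hme
    have h2 : k + 1 ≤ (e ∩ W).card := h1
    convert h2)
  exact ⟨x, (Finset.mem_inter.mp hx).1, y, (Finset.mem_inter.mp hy).1, hxy⟩

theorem lower (k : ℕ) (hk : 1 ≤ k) (c : ℕ) (hc : c ≤ 2) (M : ℕ) :
    ¬ Colours (Shallow k) c M := by
  classical
  intro hcol
  obtain ⟨V, ι, iV, fV, fι, oι, S, hS, hs, hf⟩ := forced M M
  obtain rfl : iV = fun a b => Classical.propDecidable (a = b) := Subsingleton.elim _ _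
  set E : Finset (Finset V) := Finset.univ.image S with hE
  have hsec : ∀ e : {e // e ∈ E}, ∃ i, S i = e.1 := by
    intro e
    obtain ⟨i, -, hi⟩ := Finset.mem_image.mp e.2
    exact ⟨i, hi⟩
  choose g hg using hsec
  have hginj : Function.Injective g := by
    intro a b hab
    apply Subtype.ext
    rw [← hg a, ← hg b, hab]
  have hfam : Shallow k V E := by
    refine ⟨⟨LinearOrder.lift' g hginj, ?_⟩, ?_⟩
    · rintro A ⟨v, rfl⟩ B ⟨w, rfl⟩ ⟨a₁, b₁, a₂, b₂, p, q, r, h1, h2, h3, h4⟩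
      have p' : g a₁ < g b₁ := p
      have q' : g b₁ < g a₂ := q
      have r' : g a₂ < g b₂ := r
      simp only [Set.mem_sdiff, Set.mem_ofPred_eq] at h1 h2 h3 h4
      rw [← hg] at h1 h2 h3 h4
      have key := hS v w (g a₁) (g b₁) (g a₂) (g b₂) h1.1 h1.2 h3.1 h3.2 h2.1 h2.2 h4.1 h4.2
      have e1 : ¬ (g a₂ < g b₁) := not_lt_of_gt q'
      have e2 : g a₁ < g b₂ := p'.trans (q'.trans r')
      tauto
    · intro v
      obtain ⟨i, hi⟩ := hs v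
      refine ⟨S i, Finset.mem_image_of_mem _ (Finset.mem_univ i), ?_, ?_⟩
      · rw [hi]; simp
      · rw [hi]; simpa using hk
  obtain ⟨f, hf'⟩ := hcol V E hfam
  rcases hf (fun v => decide ((f v).1 = 0)) with ⟨i, hi, hic⟩ | ⟨i, hi, hic⟩
  · obtain ⟨x, hx, y, hy, hxy⟩ := hf' (S i) (Finset.mem_image_of_mem _ (Finset.mem_univ i)) hi
    apply hxy
    have h1 := hic x hx
    have h2 := hic y hy
    simp only [decide_eq_true_eq] at h1 h2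
    exact Fin.ext (h1.trans h2.symm)
  · obtain ⟨x, hx, y, hy, hxy⟩ := hf' (S i) (Finset.mem_image_of_mem _ (Finset.mem_univ i)) hi
    apply hxy
    have h1 := hic x hx
    have h2 := hic y hy
    simp only [decide_eq_false_iff_not] at h1 h2
    have h3 := (f x).2
    have h4 := (f y).2
    exact Fin.ext (by omega)

theorem chiM_eq {𝓕 : Family} {m : ℕ} (hu : Colours 𝓕 3 m)
    (hl : ∀ c ≤ 2, ∀ M, ¬ Colours 𝓕 c M) : chiM 𝓕 = 3 := by
  refine le_antisymm (iInf₂_le 3 ⟨by norm_num, m, hu⟩) (le_iInf₂ fun c hc => ?_)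
  obtain ⟨-, M, hM⟩ := hc
  by_contra hcon
  push Not at hcon
  have : c ≤ 2 := by
    have h1 : (c : ℕ∞) < 3 := hcon
    have h2 : c < 3 := by exact_mod_cast h1
    omega
  exact hl c this M hM

/-- `χ_m = 3` for the families `Fam k m` and `Shallow k`, `1 ≤ k < m`, and the threshold for `3`
colours is at most `m` for the first and at most `k + 1` for the second. -/
theorem result (k m : ℕ) (hk : 1 ≤ k) (hkm : k < m) :
    (chiM (Fam k m) = 3 ∧ Colours (Fam k m) 3 m) ∧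
      chiM (Shallow k) = 3 ∧ Colours (Shallow k) 3 (k + 1) := by
  have h1 : ∀ c ≤ 2, ∀ M, ¬ Colours (Fam k m) c M := fun c hc M h =>
    lower k hk c hc M fun V _ E hE => h V E (fam_of_shallow hkm hE)
  have h2 : Colours (Shallow k) 3 (k + 1) := fun V _ E hE =>
    upper k (k + 1) (Nat.lt_succ_self k) V E (fam_of_shallow (Nat.lt_succ_self k) hE)
  exact ⟨⟨chiM_eq (upper k m hkm) h1, upper k m hkm⟩, chiM_eq h2 (lower k hk), h2⟩

end Pool.Agent.Work.MP_5e4613_co.BoundedDepth
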