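import Mathlib

/-!
# Three colours for dual-ABAB-free hypergraphs with shallow vertices

The hyperedges are `S i`, `i ∈ ι`, `ι` linearly ordered; the trace on a set `W` of vertices is
`S i ∩ W`.
-/

namespace Pool.Agent.DABAB

open Finset

variable {V ι : Type*} [DecidableEq V] [LinearOrder ι]

/-- For all vertices `v, w`: on the circle, the columns with `v` but not `w` and the columns with `w`
but not `v` can be separated. -/
def NC (S : ι → Finset V) : Prop :=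
  ∀ v w : V, ∀ i j k l : ι, v ∈ S i → w ∉ S i → v ∈ S k → w ∉ S k → w ∈ S j → v ∉ S j →
    w ∈ S l → v ∉ S l → ((i < j ↔ k < j) ↔ (i < l ↔ k < l))

theorem iff_aux {pc pd pq ac ad aq bc bd bq : Prop} (h1 : (pc ↔ ac) ↔ (pq ↔ aq))
    (h2 : (pc ↔ bc) ↔ (pq ↔ bq)) (h3 : (pd ↔ ad) ↔ (pq ↔ aq)) (h4 : (pd ↔ bd) ↔ (pq ↔ bq)) :
    ((ac ↔ bc) ↔ (ad ↔ bd)) := by
  by_cases pc <;> by_cases pd <;> by_cases pq <;> by_cases aq <;> by_cases bq <;> simp_all

theorem three_aux {a1 a2 a3 b12 b13 b23 : Prop} (e1 : (a2 ↔ b12) ↔ (a3 ↔ b13))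
    (e2 : (a1 ↔ ¬ b12) ↔ (a3 ↔ b23)) (e3 : (a1 ↔ ¬ b13) ↔ (a2 ↔ ¬ b23)) : False := by
  by_cases a1 <;> by_cases a2 <;> by_cases a3 <;> by_cases b12 <;> by_cases b13 <;> simp_all

theorem sep {S : ι → Finset V} (h : NC S) {a b c d : V} {p q α β γ δ : ι}
    (hpa : a ∈ S p) (hpb : b ∈ S p) (hpc : c ∉ S p) (hpd : d ∉ S p)
    (hαa : a ∈ S α) (hαc : c ∉ S α) (hαd : d ∉ S α)
    (hβb : b ∈ S β) (hβc : c ∉ S β) (hβd : d ∉ S β)
    (hγc : c ∈ S γ) (hγa : a ∉ S γ) (hγb : b ∉ S γ)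
    (hδd : d ∈ S δ) (hδa : a ∉ S δ) (hδb : b ∉ S δ)
    (hqc : c ∈ S q) (hqd : d ∈ S q) (hqa : a ∉ S q) (hqb : b ∉ S q) :
    ((α < γ ↔ β < γ) ↔ (α < δ ↔ β < δ)) := by
  have h1 := h a c p γ α q hpa hpc hαa hαc hγc hγa hqc hqa
  have h2 := h b c p γ β q hpb hpc hβb hβc hγc hγb hqc hqb
  have h3 := h a d p δ α q hpa hpd hαa hαd hδd hδa hqd hqa
  have h4 := h b d p δ β q hpb hpd hβb hβd hδd hδb hqd hqb
  exact iff_aux h1 h2 h3 h4

/-- singleton families: three colours, all hyperedges with two vertices -/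
theorem coreA {S : ι → Finset V} (h : NC S) (W : Finset V) :
    (∀ v ∈ W, ∃ i, S i ∩ W = {v}) → ∃ c : V → Fin 3, ∀ i, 2 ≤ (S i ∩ W).card →
      ∃ x ∈ S i ∩ W, ∃ y ∈ S i ∩ W, c x ≠ c y := by
  classical
  induction W using Finset.strongInduction with
  | H W ih =>
  intro hs
  rcases W.eq_empty_or_nonempty with rfl | ⟨v, hv⟩
  · exact ⟨fun _ => 0, fun i hi => by simp at hi⟩
  haveI : Nonempty ι := ⟨(hs v hv).choose⟩
  choose! s hs using hs
  have hsv : ∀ v ∈ W, v ∈ S (s v) := by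
    intro v hv
    have : v ∈ S (s v) ∩ W := by rw [hs v hv]; simp
    exact (mem_inter.mp this).1
  have hsw : ∀ v ∈ W, ∀ w ∈ W, w ≠ v → w ∉ S (s v) := by
    intro v hv w hw hne hmem
    have : w ∈ S (s v) ∩ W := mem_inter.mpr ⟨hmem, hw⟩
    rw [hs v hv] at this
    exact hne (mem_singleton.mp this)
  have hsub : ∀ W', W' ⊂ W → ∃ c : V → Fin 3, ∀ i, 2 ≤ (S i ∩ W').card →
      ∃ x ∈ S i ∩ W', ∃ y ∈ S i ∩ W', c x ≠ c y := by
    intro W' hW'
    refine ih W' hW' fun v hv => ⟨s v, ?_⟩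
    ext x
    simp only [mem_inter, mem_singleton]
    constructor
    · rintro ⟨h1, h2⟩
      by_contra hne
      exact hsw v (hW'.1 hv) x (hW'.1 h2) hne h1
    · rintro rfl
      exact ⟨hsv x (hW'.1 hv), hv⟩
  by_cases hsplit : ∃ p a b c d, a ∈ W ∧ b ∈ W ∧ c ∈ W ∧ d ∈ W ∧ a ≠ b ∧ c ≠ a ∧ c ≠ b ∧ d ≠ a ∧
      d ≠ b ∧ S p ∩ W = {a, b} ∧ (s a < s c ↔ s b < s c) ∧ ¬ (s a < s d ↔ s b < s d)
  · obtain ⟨p, a, b, c, d, ha, hb, hc, hd, hab, hca, hcb, hda, hdb, hp, hPc, hPd⟩ := hsplit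
    have hpa : a ∈ S p := by
      have : a ∈ S p ∩ W := by rw [hp]; simp
      exact (mem_inter.mp this).1
    have hpb : b ∈ S p := by
      have : b ∈ S p ∩ W := by rw [hp]; simp
      exact (mem_inter.mp this).1
    have hpx : ∀ x ∈ W, x ≠ a → x ≠ b → x ∉ S p := by
      intro x hx hxa hxb hmem
      have : x ∈ S p ∩ W := mem_inter.mpr ⟨hmem, hx⟩
      rw [hp] at this
      simp at this
      tauto
    set W₁ := W.filter fun x => x = a ∨ x = b ∨ (s a < s x ↔ s b < s x) with hW₁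
    set W₂ := W.filter fun x => x = a ∨ x = b ∨ ¬ (s a < s x ↔ s b < s x) with hW₂
    have hW₁s : W₁ ⊂ W := by
      refine Finset.ssubset_iff_subset_ne.mpr ⟨filter_subset _ _, fun heq => ?_⟩
      have : d ∈ W₁ := by rw [heq]; exact hd
      rw [hW₁, mem_filter] at this
      tauto
    have hW₂s : W₂ ⊂ W := by
      refine Finset.ssubset_iff_subset_ne.mpr ⟨filter_subset _ _, fun heq => ?_⟩
      have : c ∈ W₂ := by rw [heq]; exact hc
      rw [hW₂, mem_filter] at this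
      tauto
    have ha₁ : a ∈ W₁ := by rw [hW₁, mem_filter]; exact ⟨ha, Or.inl rfl⟩
    have hb₁ : b ∈ W₁ := by rw [hW₁, mem_filter]; exact ⟨hb, Or.inr (Or.inl rfl)⟩
    have ha₂ : a ∈ W₂ := by rw [hW₂, mem_filter]; exact ⟨ha, Or.inl rfl⟩
    have hb₂ : b ∈ W₂ := by rw [hW₂, mem_filter]; exact ⟨hb, Or.inr (Or.inl rfl)⟩
    have hne : ∀ (W' : Finset V) (c : V → Fin 3), W' ⊂ W → a ∈ W' → b ∈ W' →
        (∀ i, 2 ≤ (S i ∩ W').card → ∃ x ∈ S i ∩ W', ∃ y ∈ S i ∩ W', c x ≠ c y) →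
        c a ≠ c b := by
      intro W' c hW' ha' hb' hc'
      have hp' : S p ∩ W' = {a, b} := by
        ext x
        simp only [mem_inter, mem_insert, mem_singleton]
        constructor
        · rintro ⟨h1, h2⟩
          by_contra hne
          push Not at hne
          exact hpx x (hW'.1 h2) hne.1 hne.2 h1
        · rintro (rfl | rfl)
          · exact ⟨hpa, ha'⟩
          · exact ⟨hpb, hb'⟩
      obtain ⟨x, hx, y, hy, hxy⟩ := hc' p (by rw [hp', card_pair hab])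
      rw [hp'] at hx hy
      simp only [mem_insert, mem_singleton] at hx hy
      rcases hx with rfl | rfl <;> rcases hy with rfl | rfl
      · exact absurd rfl hxy
      · exact hxy
      · exact fun h => hxy h.symm
      · exact absurd rfl hxy
    obtain ⟨c₁, h₁⟩ := hsub W₁ hW₁s
    obtain ⟨c₂, h₂⟩ := hsub W₂ hW₂s
    have hn₁ := hne W₁ c₁ hW₁s ha₁ hb₁ h₁
    have hn₂ := hne W₂ c₂ hW₂s ha₂ hb₂ h₂
    have hperm : ∀ p q r t : Fin 3, p ≠ q → r ≠ t →
        ∃ σ : Equiv.Perm (Fin 3), σ p = r ∧ σ q = t := by decide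
    obtain ⟨σ, hσa, hσb⟩ := hperm (c₂ a) (c₂ b) (c₁ a) (c₁ b) hn₂ hn₁
    have hc1 : ∀ x ∈ W₁, (if x ∈ W₁ then c₁ x else σ (c₂ x)) = c₁ x := fun x hx => if_pos hx
    have hc2 : ∀ x ∈ W₂, (if x ∈ W₁ then c₁ x else σ (c₂ x)) = σ (c₂ x) := by
      intro x hx
      by_cases hx1 : x ∈ W₁
      · rw [if_pos hx1]
        rw [hW₁, mem_filter] at hx1
        rw [hW₂, mem_filter] at hx
        have : x = a ∨ x = b := by tauto
        rcases this with rfl | rfl
        · exact hσa.symm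
        · exact hσb.symm
      · rw [if_neg hx1]
    refine ⟨fun x => if x ∈ W₁ then c₁ x else σ (c₂ x), fun j hj => ?_⟩
    have hclaim : 2 ≤ (S j ∩ W₁).card ∨ 2 ≤ (S j ∩ W₂).card := by
      have hone : ∀ e, e ∈ S j → e ∈ W₁ → e ∈ W₂ →
          2 ≤ (S j ∩ W₁).card ∨ 2 ≤ (S j ∩ W₂).card := by
        intro e hej he₁ he₂
        obtain ⟨x, hx, hxe⟩ := Finset.exists_mem_ne (show 1 < (S j ∩ W).card from hj) e
        rw [mem_inter] at hx
        by_cases hP : (s a < s x ↔ s b < s x)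
        · left
          refine Finset.one_lt_card.mpr ⟨x, ?_, e, mem_inter.mpr ⟨hej, he₁⟩, hxe⟩
          rw [mem_inter, hW₁, mem_filter]
          exact ⟨hx.1, hx.2, Or.inr (Or.inr hP)⟩
        · right
          refine Finset.one_lt_card.mpr ⟨x, ?_, e, mem_inter.mpr ⟨hej, he₂⟩, hxe⟩
          rw [mem_inter, hW₂, mem_filter]
          exact ⟨hx.1, hx.2, Or.inr (Or.inr hP)⟩
      by_cases haj : a ∈ S j
      · exact hone a haj ha₁ ha₂
      by_cases hbj : b ∈ S j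
      · exact hone b hbj hb₁ hb₂
      obtain ⟨x, hx, y, hy, hxy⟩ := Finset.one_lt_card.mp (show 1 < (S j ∩ W).card from hj)
      rw [mem_inter] at hx hy
      have hxa : x ≠ a := fun h => haj (h ▸ hx.1)
      have hxb : x ≠ b := fun h => hbj (h ▸ hx.1)
      have hya : y ≠ a := fun h => haj (h ▸ hy.1)
      have hyb : y ≠ b := fun h => hbj (h ▸ hy.1)
      have hiff : ((s a < s x ↔ s b < s x) ↔ (s a < s y ↔ s b < s y)) :=
        sep h (p := p) (q := j) hpa hpb (hpx x hx.2 hxa hxb) (hpx y hy.2 hya hyb)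
          (hsv a ha) (hsw a ha x hx.2 hxa) (hsw a ha y hy.2 hya)
          (hsv b hb) (hsw b hb x hx.2 hxb) (hsw b hb y hy.2 hyb)
          (hsv x hx.2) (hsw x hx.2 a ha hxa.symm) (hsw x hx.2 b hb hxb.symm)
          (hsv y hy.2) (hsw y hy.2 a ha hya.symm) (hsw y hy.2 b hb hyb.symm)
          hx.1 hy.1 haj hbj
      by_cases hP : (s a < s x ↔ s b < s x)
      · left
        refine Finset.one_lt_card.mpr ⟨x, ?_, y, ?_, hxy⟩
        · rw [mem_inter, hW₁, mem_filter]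
          exact ⟨hx.1, hx.2, Or.inr (Or.inr hP)⟩
        · rw [mem_inter, hW₁, mem_filter]
          exact ⟨hy.1, hy.2, Or.inr (Or.inr (hiff.mp hP))⟩
      · right
        refine Finset.one_lt_card.mpr ⟨x, ?_, y, ?_, hxy⟩
        · rw [mem_inter, hW₂, mem_filter]
          exact ⟨hx.1, hx.2, Or.inr (Or.inr hP)⟩
        · rw [mem_inter, hW₂, mem_filter]
          exact ⟨hy.1, hy.2, Or.inr (Or.inr fun hP' => hP (hiff.mpr hP'))⟩
    rcases hclaim with hj' | hj'
    · obtain ⟨x, hx, y, hy, hxy⟩ := h₁ j hj'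
      rw [mem_inter] at hx hy
      refine ⟨x, mem_inter.mpr ⟨hx.1, hW₁s.1 hx.2⟩, y, mem_inter.mpr ⟨hy.1, hW₁s.1 hy.2⟩, ?_⟩
      simp only
      rw [hc1 x hx.2, hc1 y hy.2]
      exact hxy
    · obtain ⟨x, hx, y, hy, hxy⟩ := h₂ j hj'
      rw [mem_inter] at hx hy
      refine ⟨x, mem_inter.mpr ⟨hx.1, hW₂s.1 hx.2⟩, y, mem_inter.mpr ⟨hy.1, hW₂s.1 hy.2⟩, ?_⟩
      simp only
      rw [hc2 x hx.2, hc2 y hy.2]
      exact fun heq => hxy (σ.injective heq)
  · -- every vertex has at most two neighbours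
    have hns : ∀ p a b c d, a ∈ W → b ∈ W → c ∈ W → d ∈ W → a ≠ b → c ≠ a → c ≠ b → d ≠ a →
        d ≠ b → S p ∩ W = {a, b} → ((s a < s c ↔ s b < s c) ↔ (s a < s d ↔ s b < s d)) := by
      intro p a b c d ha hb hc hd hab hca hcb hda hdb hp
      by_cases h1 : (s a < s c ↔ s b < s c) <;> by_cases h2 : (s a < s d ↔ s b < s d)
      · tauto
      · exact absurd ⟨p, a, b, c, d, ha, hb, hc, hd, hab, hca, hcb, hda, hdb, hp, h1, h2⟩ hsplit
      · exact absurd ⟨p, a, b, d, c, ha, hb, hd, hc, hab, hda, hdb, hca, hcb, hp, h2, h1⟩ hsplit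
      · tauto
    have hinj : ∀ x ∈ W, ∀ y ∈ W, x ≠ y → s x ≠ s y := by
      intro x hx y hy hxy heq
      exact hsw y hy x hx hxy (heq ▸ hsv x hx)
    obtain ⟨c₀, h₀⟩ := hsub (W.erase v) (Finset.erase_ssubset hv)
    set N := W.filter fun z => z ≠ v ∧ ∃ i, S i ∩ W = {v, z} with hN
    have hNcard : N.card ≤ 2 := by
      by_contra hcon
      push Not at hcon
      obtain ⟨z₁, z₂, z₃, hz₁, hz₂, hz₃, h12, h13, h23⟩ := Finset.two_lt_card_iff.mp hcon
      rw [hN, mem_filter] at hz₁ hz₂ hz₃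
      obtain ⟨hz₁W, hz₁v, i₁, hi₁⟩ := hz₁
      obtain ⟨hz₂W, hz₂v, i₂, hi₂⟩ := hz₂
      obtain ⟨hz₃W, hz₃v, i₃, hi₃⟩ := hz₃
      have e1 := hns i₁ v z₁ z₂ z₃ hv hz₁W hz₂W hz₃W hz₁v.symm hz₂v h12.symm hz₃v h13.symm hi₁
      have e2 := hns i₂ v z₂ z₁ z₃ hv hz₂W hz₁W hz₃W hz₂v.symm hz₁v h12 hz₃v h23.symm hi₂
      have e3 := hns i₃ v z₃ z₁ z₂ hv hz₃W hz₁W hz₂W hz₃v.symm hz₁v h13 hz₂v h23 hi₃
      have f12 := hinj z₁ hz₁W z₂ hz₂W h12
      have f13 := hinj z₁ hz₁W z₃ hz₃W h13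
      have f23 := hinj z₂ hz₂W z₃ hz₃W h23
      have g12 : s z₂ < s z₁ ↔ ¬ s z₁ < s z₂ :=
        ⟨fun h => not_lt.mpr h.le, fun h => lt_of_le_of_ne (not_lt.mp h) f12.symm⟩
      have g13 : s z₃ < s z₁ ↔ ¬ s z₁ < s z₃ :=
        ⟨fun h => not_lt.mpr h.le, fun h => lt_of_le_of_ne (not_lt.mp h) f13.symm⟩
      have g23 : s z₃ < s z₂ ↔ ¬ s z₂ < s z₃ :=
        ⟨fun h => not_lt.mpr h.le, fun h => lt_of_le_of_ne (not_lt.mp h) f23.symm⟩
      rw [g12] at e2
      rw [g13, g23] at e3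
      exact three_aux e1 e2 e3
    have hlt : (N.image c₀).card < (Finset.univ : Finset (Fin 3)).card := by
      have := Finset.card_image_le (s := N) (f := c₀)
      simp only [Finset.card_univ, Fintype.card_fin]
      omega
    obtain ⟨κ, -, hκ⟩ := Finset.exists_mem_notMem_of_card_lt_card hlt
    refine ⟨Function.update c₀ v κ, fun j hj => ?_⟩
    by_cases hj' : 2 ≤ (S j ∩ W.erase v).card
    · obtain ⟨x, hx, y, hy, hxy⟩ := h₀ j hj'
      rw [mem_inter, mem_erase] at hx hy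
      refine ⟨x, mem_inter.mpr ⟨hx.1, hx.2.2⟩, y, mem_inter.mpr ⟨hy.1, hy.2.2⟩, ?_⟩
      rw [Function.update_of_ne hx.2.1, Function.update_of_ne hy.2.1]
      exact hxy
    · obtain ⟨z, hz, hzv⟩ := Finset.exists_mem_ne (show 1 < (S j ∩ W).card from hj) v
      rw [mem_inter] at hz
      have hvj : v ∈ S j := by
        by_contra hvj
        apply hj'
        have : S j ∩ W.erase v = S j ∩ W := by
          ext x
          simp only [mem_inter, mem_erase]
          constructor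
          · rintro ⟨h1, h2, h3⟩; exact ⟨h1, h3⟩
          · rintro ⟨h1, h2⟩; exact ⟨h1, fun h => hvj (h ▸ h1), h2⟩
        rw [this]; exact hj
      have heq : S j ∩ W = {v, z} := by
        ext x
        simp only [mem_inter, mem_insert, mem_singleton]
        constructor
        · rintro ⟨h1, h2⟩
          by_contra hne
          push Not at hne
          apply hj'
          exact Finset.one_lt_card.mpr ⟨x, by simp [h1, h2, hne.1], z, by simp [hz, hzv], hne.2⟩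
        · rintro (rfl | rfl)
          · exact ⟨hvj, hv⟩
          · exact hz
      refine ⟨v, mem_inter.mpr ⟨hvj, hv⟩, z, mem_inter.mpr hz, ?_⟩
      rw [Function.update_self, Function.update_of_ne hzv]
      intro hcon
      apply hκ
      rw [Finset.mem_image]
      refine ⟨z, ?_, hcon.symm⟩
      rw [hN, mem_filter]
      exact ⟨hz.2, hzv, j, heq⟩

/-- vertices of depth at most `k`: three colours, all hyperedges with `k + 1` vertices -/
theorem coreB {S : ι → Finset V} (h : NC S) (k : ℕ) : ∀ W : Finset V,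
    (∀ v ∈ W, ∃ i, v ∈ S i ∧ (S i ∩ W).card ≤ k) → ∃ c : V → Fin 3, ∀ i,
      k + 1 ≤ (S i ∩ W).card → ∃ x ∈ S i ∩ W, ∃ y ∈ S i ∩ W, c x ≠ c y := by
  classical
  induction k with
  | zero =>
    intro W hW
    refine ⟨fun _ => 0, fun i hi => ?_⟩
    obtain ⟨v, hv⟩ := Finset.card_pos.mp (show 0 < (S i ∩ W).card by omega)
    rw [mem_inter] at hv
    obtain ⟨j, hj, hj0⟩ := hW v hv.2
    have : v ∈ S j ∩ W := mem_inter.mpr ⟨hj, hv.2⟩
    have := Finset.card_pos.mpr ⟨v, this⟩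
    omega
  | succ k ih =>
    intro W hW
    set 𝒴 := W.powerset.filter fun Y => ∀ i, (S i ∩ W).card ≤ k + 1 → (S i ∩ W).Nonempty →
      (S i ∩ Y).Nonempty with h𝒴
    have hne : 𝒴.Nonempty := ⟨W, by
      rw [h𝒴, mem_filter]; exact ⟨mem_powerset_self W, fun i _ h => h⟩⟩
    obtain ⟨Y, hY, hmin⟩ := Finset.exists_min_image 𝒴 Finset.card hne
    rw [h𝒴, mem_filter, mem_powerset] at hY
    obtain ⟨hYW, hhit⟩ := hY
    have hpriv : ∀ y ∈ Y, ∃ i, S i ∩ Y = {y} := by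
      intro y hy
      have hnot : Y.erase y ∉ 𝒴 := fun hmem => by
        have h1 := hmin _ hmem
        have h2 := Finset.card_erase_lt_of_mem hy
        omega
      rw [h𝒴, mem_filter, mem_powerset] at hnot
      push Not at hnot
      obtain ⟨i, hi1, hi2, hi3⟩ := hnot ((erase_subset _ _).trans hYW)
      refine ⟨i, ?_⟩
      have hn := hhit i hi1 hi2
      have hsub : S i ∩ Y ⊆ {y} := by
        intro x hx
        rw [mem_inter] at hx
        rw [mem_singleton]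
        by_contra hxy
        have : x ∈ S i ∩ Y.erase y := mem_inter.mpr ⟨hx.1, mem_erase.mpr ⟨hxy, hx.2⟩⟩
        rw [hi3] at this
        simp at this
      exact (Finset.Nonempty.subset_singleton_iff hn).mp hsub
    obtain ⟨cY, hcY⟩ := coreA h Y hpriv
    obtain ⟨cZ, hcZ⟩ := ih (W \ Y) (by
      intro v hv
      rw [mem_sdiff] at hv
      obtain ⟨i, hi, hik⟩ := hW v hv.1
      refine ⟨i, hi, ?_⟩
      obtain ⟨y, hy⟩ := hhit i hik ⟨v, mem_inter.mpr ⟨hi, hv.1⟩⟩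
      rw [mem_inter] at hy
      have hlt : (S i ∩ (W \ Y)).card < (S i ∩ W).card := by
        refine Finset.card_lt_card (Finset.ssubset_iff_subset_ne.mpr
          ⟨inter_subset_inter_left sdiff_subset, fun heq => ?_⟩)
        have : y ∈ S i ∩ W := mem_inter.mpr ⟨hy.1, hYW hy.2⟩
        rw [← heq, mem_inter, mem_sdiff] at this
        exact this.2.2 hy.2
      omega)
    refine ⟨fun x => if x ∈ Y then cY x else cZ x, fun i hi => ?_⟩
    by_cases hiY : 2 ≤ (S i ∩ Y).card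
    · obtain ⟨x, hx, y, hy, hxy⟩ := hcY i hiY
      rw [mem_inter] at hx hy
      refine ⟨x, mem_inter.mpr ⟨hx.1, hYW hx.2⟩, y, mem_inter.mpr ⟨hy.1, hYW hy.2⟩, ?_⟩
      simp only
      rw [if_pos hx.2, if_pos hy.2]
      exact hxy
    · have hcard : (S i ∩ W).card = (S i ∩ Y).card + (S i ∩ (W \ Y)).card := by
        rw [← Finset.card_union_of_disjoint]
        · congr 1
          ext x
          simp only [mem_inter, mem_union, mem_sdiff]
          constructor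
          · rintro ⟨h1, h2⟩
            by_cases h3 : x ∈ Y
            · exact Or.inl ⟨h1, h3⟩
            · exact Or.inr ⟨h1, h2, h3⟩
          · rintro (⟨h1, h2⟩ | ⟨h1, h2, -⟩)
            · exact ⟨h1, hYW h2⟩
            · exact ⟨h1, h2⟩
        · rw [Finset.disjoint_left]
          intro x hx hx'
          rw [mem_inter] at hx hx'
          exact (mem_sdiff.mp hx'.2).2 hx.2
      obtain ⟨x, hx, y, hy, hxy⟩ := hcZ i (by omega)
      rw [mem_inter, mem_sdiff] at hx hy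
      refine ⟨x, mem_inter.mpr ⟨hx.1, hx.2.1⟩, y, mem_inter.mpr ⟨hy.1, hy.2.1⟩, ?_⟩
      simp only
      rw [if_neg hx.2.2, if_neg hy.2.2]
      exact hxy

end Pool.Agent.DABAB
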