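import Pool.Agent.Work.MP_5e4613_co.Core

/-!
# Dual-ABAB-free hypergraphs with all singletons which need three colours
-/

namespace Pool.Agent.DABAB

open Finset

variable {V ι : Type} [DecidableEq V] [Fintype V] [Fintype ι] [LinearOrder ι]

/-- The vertex `v` is in the column `k` of the block of the column `t`: the columns are
`S t`, `S t ∪ {x_i}` for `i = 0, ..., q - 1`, `{x_i}` for `i = q - 1, ..., 0`, and
`{x_0, ..., x_{q-1}}`. -/
def InBlk (q : ℕ) (S : ι → Finset V) (t : ι) (k : ℕ) : V ⊕ (ι × Fin q) → Prop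
  | Sum.inl a => a ∈ S t ∧ k ≤ q
  | Sum.inr (t', i) => t' = t ∧ (k = i.1 + 1 ∨ k = 2 * q - i.1 ∨ k = 2 * q + 1)

open Classical in
/-- the next family -/
noncomputable def nxt (q : ℕ) (S : ι → Finset V) :
    ι ×ₗ Fin (2 * q + 2) → Finset (V ⊕ (ι × Fin q)) :=
  fun z => univ.filter (InBlk q S (ofLex z).1 (ofLex z).2.1)

theorem mem_nxt {q : ℕ} {S : ι → Finset V} {z : ι ×ₗ Fin (2 * q + 2)} {v : V ⊕ (ι × Fin q)} :
    v ∈ nxt q S z ↔ InBlk q S (ofLex z).1 (ofLex z).2.1 v := by
  simp [nxt]

theorem lex_lt {q : ℕ} (x y : ι ×ₗ Fin (2 * q + 2)) : x < y ↔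
    (ofLex x).1 < (ofLex y).1 ∨ (ofLex x).1 = (ofLex y).1 ∧ (ofLex x).2.1 < (ofLex y).2.1 := by
  rw [Prod.Lex.lt_iff, Fin.lt_def]

theorem lex_lt_of_ne {q : ℕ} {x y : ι ×ₗ Fin (2 * q + 2)} (h : (ofLex x).1 ≠ (ofLex y).1) :
    x < y ↔ (ofLex x).1 < (ofLex y).1 := by
  rw [lex_lt]
  tauto

theorem nat_aux {q x y i k j l : ℕ} (hx : x < q) (hy : y < q) (hxy : x ≠ y)
    (g1 : i = x + 1 ∨ i = 2 * q - x) (g2 : k = x + 1 ∨ k = 2 * q - x)
    (g3 : j = y + 1 ∨ j = 2 * q - y) (g4 : l = y + 1 ∨ l = 2 * q - y) :
    ((i < j ↔ k < j) ↔ (i < l ↔ k < l)) := by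
  omega

theorem nxt_NC {q : ℕ} {S : ι → Finset V} (h : NC S) : NC (nxt q S) := by
  intro v w i j k l h1 h2 h3 h4 h5 h6 h7 h8
  rw [mem_nxt] at h1 h2 h3 h4 h5 h6 h7 h8
  rcases v with a | ⟨t, x⟩ <;> rcases w with b | ⟨t', y⟩
  · simp only [InBlk] at *
    have hij : (ofLex i).1 ≠ (ofLex j).1 := fun he => h6 ⟨he ▸ h1.1, h5.2⟩
    have hkj : (ofLex k).1 ≠ (ofLex j).1 := fun he => h6 ⟨he ▸ h3.1, h5.2⟩
    have hil : (ofLex i).1 ≠ (ofLex l).1 := fun he => h8 ⟨he ▸ h1.1, h7.2⟩
    have hkl : (ofLex k).1 ≠ (ofLex l).1 := fun he => h8 ⟨he ▸ h3.1, h7.2⟩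
    rw [lex_lt_of_ne hij, lex_lt_of_ne hkj, lex_lt_of_ne hil, lex_lt_of_ne hkl]
    exact h a b _ _ _ _ h1.1 (fun hb => h2 ⟨hb, h1.2⟩) h3.1 (fun hb => h4 ⟨hb, h3.2⟩)
      h5.1 (fun ha => h6 ⟨ha, h5.2⟩) h7.1 (fun ha => h8 ⟨ha, h7.2⟩)
  · simp only [InBlk] at *
    have key : ∀ z : ι ×ₗ Fin (2 * q + 2), a ∈ S (ofLex z).1 ∧ (ofLex z).2.1 ≤ q →
        (z < j ↔ z < l) := by
      intro z hz
      by_cases hzt : (ofLex z).1 = t'
      · have hj : q < (ofLex j).2.1 := by
          by_contra hcon
          exact h6 ⟨by rw [← h5.1, ← hzt]; exact hz.1, by omega⟩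
        have hl : q < (ofLex l).2.1 := by
          by_contra hcon
          exact h8 ⟨by rw [← h7.1, ← hzt]; exact hz.1, by omega⟩
        rw [lex_lt, lex_lt]
        constructor
        · intro _
          exact Or.inr ⟨by rw [hzt, h7.1], by omega⟩
        · intro _
          exact Or.inr ⟨by rw [hzt, h5.1], by omega⟩
      · rw [lex_lt_of_ne (by rw [← h5.1]; exact hzt), lex_lt_of_ne (by rw [← h7.1]; exact hzt),
          ← h5.1, ← h7.1]
    rw [key i h1, key k h3]
  · simp only [InBlk] at *
    have key : ∀ z : ι ×ₗ Fin (2 * q + 2), b ∈ S (ofLex z).1 ∧ (ofLex z).2.1 ≤ q →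
        (i < z ↔ k < z) := by
      intro z hz
      by_cases hzt : (ofLex z).1 = t
      · have hi : q < (ofLex i).2.1 := by
          by_contra hcon
          exact h2 ⟨by rw [← h1.1, ← hzt]; exact hz.1, by omega⟩
        have hk : q < (ofLex k).2.1 := by
          by_contra hcon
          exact h4 ⟨by rw [← h3.1, ← hzt]; exact hz.1, by omega⟩
        rw [lex_lt, lex_lt]
        constructor
        · rintro (hh | hh)
          · rw [← h1.1, hzt] at hh; exact absurd hh (lt_irrefl _)
          · omega
        · rintro (hh | hh)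
          · rw [← h3.1, hzt] at hh; exact absurd hh (lt_irrefl _)
          · omega
      · rw [lex_lt_of_ne (by rw [← h1.1]; exact Ne.symm hzt),
          lex_lt_of_ne (by rw [← h3.1]; exact Ne.symm hzt), ← h1.1, ← h3.1]
    exact ⟨fun _ => key l h7, fun _ => key j h5⟩
  · simp only [InBlk] at *
    by_cases htt : t = t'
    · subst htt
      have hxy : x.1 ≠ y.1 := by
        intro he
        apply h2
        rw [← he]
        exact h1
      have hx := x.2
      have hy := y.2
      have f1 : (ofLex i).1 = t := h1.1.symm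
      have f2 : (ofLex k).1 = t := h3.1.symm
      have f3 : (ofLex j).1 = t := h5.1.symm
      have f4 : (ofLex l).1 = t := h7.1.symm
      have g1 : (ofLex i).2.1 = x.1 + 1 ∨ (ofLex i).2.1 = 2 * q - x.1 := by
        rcases h1.2 with he | he | he
        · exact Or.inl he
        · exact Or.inr he
        · exact absurd ⟨h1.1, Or.inr (Or.inr he)⟩ h2
      have g2 : (ofLex k).2.1 = x.1 + 1 ∨ (ofLex k).2.1 = 2 * q - x.1 := by
        rcases h3.2 with he | he | he
        · exact Or.inl he
        · exact Or.inr he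
        · exact absurd ⟨h3.1, Or.inr (Or.inr he)⟩ h4
      have g3 : (ofLex j).2.1 = y.1 + 1 ∨ (ofLex j).2.1 = 2 * q - y.1 := by
        rcases h5.2 with he | he | he
        · exact Or.inl he
        · exact Or.inr he
        · exact absurd ⟨h5.1, Or.inr (Or.inr he)⟩ h6
      have g4 : (ofLex l).2.1 = y.1 + 1 ∨ (ofLex l).2.1 = 2 * q - y.1 := by
        rcases h7.2 with he | he | he
        · exact Or.inl he
        · exact Or.inr he
        · exact absurd ⟨h7.1, Or.inr (Or.inr he)⟩ h8
      have e1 : i < j ↔ (ofLex i).2.1 < (ofLex j).2.1 := by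
        rw [lex_lt, f1, f3]; simp
      have e2 : k < j ↔ (ofLex k).2.1 < (ofLex j).2.1 := by
        rw [lex_lt, f2, f3]; simp
      have e3 : i < l ↔ (ofLex i).2.1 < (ofLex l).2.1 := by
        rw [lex_lt, f1, f4]; simp
      have e4 : k < l ↔ (ofLex k).2.1 < (ofLex l).2.1 := by
        rw [lex_lt, f2, f4]; simp
      rw [e1, e2, e3, e4]
      exact nat_aux hx hy hxy g1 g2 g3 g4
    · have n1 : (ofLex i).1 ≠ (ofLex j).1 := by rw [← h1.1, ← h5.1]; exact htt
      have n2 : (ofLex k).1 ≠ (ofLex j).1 := by rw [← h3.1, ← h5.1]; exact htt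
      have n3 : (ofLex i).1 ≠ (ofLex l).1 := by rw [← h1.1, ← h7.1]; exact htt
      have n4 : (ofLex k).1 ≠ (ofLex l).1 := by rw [← h3.1, ← h7.1]; exact htt
      rw [lex_lt_of_ne n1, lex_lt_of_ne n2, lex_lt_of_ne n3, lex_lt_of_ne n4, ← h1.1, ← h3.1]
      exact ⟨fun _ => Iff.rfl, fun _ => Iff.rfl⟩

/-- every two-colouring has a `true` hyperedge with `p` vertices or a `false` one with `q` -/
theorem forced (q : ℕ) : ∀ p : ℕ, ∃ (V ι : Type) (_ : DecidableEq V) (_ : Fintype V)
    (_ : Fintype ι) (_ : LinearOrder ι) (S : ι → Finset V), NC S ∧ (∀ v, ∃ i, S i = {v}) ∧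
      ∀ c : V → Bool, (∃ i, p ≤ (S i).card ∧ ∀ x ∈ S i, c x = true) ∨
        (∃ i, q ≤ (S i).card ∧ ∀ x ∈ S i, c x = false) := by
  intro p
  induction p with
  | zero =>
    refine ⟨Fin 0, Fin 1, inferInstance, inferInstance, inferInstance, inferInstance,
      fun _ => ∅, ?_, fun v => v.elim0, fun c => Or.inl ⟨0, by simp, by simp⟩⟩
    intro v
    exact v.elim0
  | succ p ih =>
    obtain ⟨V, ι, iV, fV, fι, oι, S, hS, hs, hc⟩ := ih
    refine ⟨V ⊕ (ι × Fin q), ι ×ₗ Fin (2 * q + 2), inferInstance, inferInstance, inferInstance,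
      inferInstance, nxt q S, nxt_NC hS, ?_, ?_⟩
    · rintro (a | ⟨t, x⟩)
      · obtain ⟨i, hi⟩ := hs a
        refine ⟨toLex (i, ⟨0, by omega⟩), ?_⟩
        ext z
        rw [mem_nxt, mem_singleton]
        rcases z with b | ⟨t, y⟩
        · simp [InBlk, hi]
        · have := y.2
          simp only [InBlk, ofLex_toLex, reduceCtorEq, iff_false, not_and]
          intro _
          rw [false_or, or_false]
          omega
      · have hx := x.2
        refine ⟨toLex (t, ⟨2 * q - x.1, by omega⟩), ?_⟩
        ext z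
        rw [mem_nxt, mem_singleton]
        rcases z with b | ⟨t', y⟩
        · simp only [InBlk, ofLex_toLex, reduceCtorEq, iff_false, not_and]
          intro _
          omega
        · have hy := y.2
          simp only [InBlk, ofLex_toLex, Sum.inr.injEq, Prod.mk.injEq, Fin.ext_iff]
          constructor
          · rintro ⟨h1, h2⟩
            exact ⟨h1, by omega⟩
          · rintro ⟨h1, h2⟩
            exact ⟨h1, by omega⟩
    · intro c
      rcases hc (fun a => c (Sum.inl a)) with ⟨t, ht, htc⟩ | ⟨t, ht, htc⟩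
      · by_cases hx : ∃ x : Fin q, c (Sum.inr (t, x)) = true
        · obtain ⟨x, hx⟩ := hx
          have hxq := x.2
          left
          refine ⟨toLex (t, ⟨x.1 + 1, by omega⟩), ?_, ?_⟩
          · have hsub : insert (Sum.inr (t, x)) ((S t).map ⟨Sum.inl, Sum.inl_injective⟩) ⊆
                nxt q S (toLex (t, ⟨x.1 + 1, by omega⟩)) := by
              intro z hz
              rw [mem_nxt]
              rw [mem_insert, mem_map] at hz
              rcases hz with rfl | ⟨a, ha, rfl⟩
              · simp [InBlk]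
              · simp only [InBlk, ofLex_toLex, Function.Embedding.coeFn_mk]
                exact ⟨ha, by omega⟩
            have hcard := Finset.card_le_card hsub
            rw [Finset.card_insert_of_notMem (by simp), Finset.card_map] at hcard
            omega
          · intro z hz
            rw [mem_nxt] at hz
            rcases z with b | ⟨t', y⟩
            · exact htc b hz.1
            · have hy := y.2
              simp only [InBlk, ofLex_toLex] at hz
              obtain ⟨rfl, hz⟩ := hz
              have : y = x := by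
                rw [Fin.ext_iff]
                omega
              rw [this]
              exact hx
        · push Not at hx
          right
          refine ⟨toLex (t, ⟨2 * q + 1, by omega⟩), ?_, ?_⟩
          · have hsub : (univ : Finset (Fin q)).map
                ⟨fun x => Sum.inr (t, x), fun x y hxy => by simpa using hxy⟩ ⊆
                nxt q S (toLex (t, ⟨2 * q + 1, by omega⟩)) := by
              intro z hz
              rw [mem_nxt]
              rw [mem_map] at hz
              obtain ⟨x, -, rfl⟩ := hz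
              simp [InBlk]
            have hcard := Finset.card_le_card hsub
            rw [Finset.card_map, Finset.card_univ, Fintype.card_fin] at hcard
            exact hcard
          · intro z hz
            rw [mem_nxt] at hz
            rcases z with b | ⟨t', y⟩
            · simp only [InBlk, ofLex_toLex] at hz
              omega
            · simp only [InBlk, ofLex_toLex] at hz
              obtain ⟨rfl, hz⟩ := hz
              simpa using hx y
      · right
        refine ⟨toLex (t, ⟨0, by omega⟩), ?_, ?_⟩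
        · have hsub : (S t).map ⟨Sum.inl, Sum.inl_injective⟩ ⊆
                nxt q S (toLex (t, ⟨0, by omega⟩)) := by
            intro z hz
            rw [mem_nxt]
            rw [mem_map] at hz
            obtain ⟨a, ha, rfl⟩ := hz
            simp only [InBlk, ofLex_toLex, Function.Embedding.coeFn_mk]
            exact ⟨ha, by omega⟩
          have hcard := Finset.card_le_card hsub
          rw [Finset.card_map] at hcard
          omega
        · intro z hz
          rw [mem_nxt] at hz
          rcases z with b | ⟨t', y⟩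
          · exact htc b hz.1
          · have := y.2
            simp only [InBlk, ofLex_toLex] at hz
            omega

end Pool.Agent.DABAB
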